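import Pool.Agent.X196.UD.Twins

set_option autoImplicit false

/-!
A finite group acting on the Urysohn space with distances in a set with finitely many exceptional
elements: many points which are twins of each other with the same displacement function.
-/

namespace Pool.Agent.X196.UD2

open Pool.Agent.X196.UD

/-- distance value set: `min {a + b, sup Δ}` is in `Δ` (the supremum may be infinite) -/
def DistSet (Δ : Set ℝ) : Prop :=
  (∀ a ∈ Δ, 0 < a) ∧ ∀ a ∈ Δ, ∀ b ∈ Δ,
    (BddAbove Δ → min (a + b) (sSup Δ) ∈ Δ) ∧ (¬ BddAbove Δ → a + b ∈ Δ)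

/-- the exceptional elements: those which are not a sum of two elements, and those which are not a
difference of two elements of `Δ` -/
def Exc (Δ : Set ℝ) : Set ℝ :=
  {a | a ∈ Δ ∧ ¬ ((∃ s ∈ Δ, ∃ t ∈ Δ, a = s + t) ∧ ∃ r ∈ Δ, r + a ∈ Δ)}

section
variable {Δ : Set ℝ} {U : Type} [MetricSpace U]

theorem two_vals (hD : DistSet Δ) (hnt : Δ.Nontrivial) (ε K : ℝ) (hε : ε ∈ Δ) (hK : K ∈ Δ) :
    ∃ M ∈ Δ, ∃ N ∈ Δ, N < M ∧ M - N ≤ ε ∧ K ≤ 2 * N := by
  classical
  have hεp := hD.1 ε hε
  have hKp := hD.1 K hK
  by_cases hb : BddAbove Δ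
  · have hadd : ∀ a ∈ Δ, ∀ b ∈ Δ, min (a + b) (sSup Δ) ∈ Δ := fun a ha b hb' =>
      (hD.2 a ha b hb').1 hb
    have hle : ∀ a ∈ Δ, a ≤ sSup Δ := fun a ha => le_csSup hb ha
    have hMp : 0 < sSup Δ := lt_of_lt_of_le hεp (hle ε hε)
    have hM : sSup Δ ∈ Δ := by
      obtain ⟨a, ha, ha2⟩ := exists_lt_of_lt_csSup ⟨ε, hε⟩ (show sSup Δ / 2 < sSup Δ by linarith)
      have := hadd a ha a ha
      rwa [min_eq_right (by linarith)] at this
    obtain ⟨u, hu, huM⟩ : ∃ u ∈ Δ, u < sSup Δ := by
      obtain ⟨x, hx, y, hy, hxy⟩ := hnt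
      rcases lt_or_gt_of_ne hxy with h | h
      · exact ⟨x, hx, lt_of_lt_of_le h (hle y hy)⟩
      · exact ⟨y, hy, lt_of_lt_of_le h (hle x hx)⟩
    have hup := hD.1 u hu
    obtain ⟨e, he, he1, he2⟩ : ∃ e ∈ Δ, e ≤ ε ∧ e ≤ u := by
      rcases le_total ε u with h | h
      · exact ⟨ε, hε, le_rfl, h⟩
      · exact ⟨u, hu, h, le_rfl⟩
    have hep := hD.1 e he
    have hex : ∃ k : ℕ, sSup Δ ≤ u + k * e := by
      obtain ⟨k, hk⟩ := exists_nat_ge (sSup Δ / e)
      refine ⟨k, ?_⟩
      rw [div_le_iff₀ hep] at hk
      linarith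
    have hk0 : Nat.find hex ≠ 0 := by
      intro h0
      have := Nat.find_spec hex
      rw [h0] at this
      simp at this
      linarith
    obtain ⟨k, hk⟩ := Nat.exists_eq_succ_of_ne_zero hk0
    have hlt : ∀ j, j ≤ k → u + j * e < sSup Δ := by
      intro j hj
      have := Nat.find_min hex (show j < Nat.find hex by omega)
      push Not at this
      exact this
    have hmem : ∀ j, j ≤ k → u + (j : ℝ) * e ∈ Δ := by
      intro j
      induction j with
      | zero => intro _; simpa using hu
      | succ j ih =>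
        intro hj
        have h1 := hadd _ (ih (by omega)) e he
        have h2 := hlt (j + 1) hj
        have h3 : u + (j : ℝ) * e + e = u + ((j + 1 : ℕ) : ℝ) * e := by push_cast; ring
        rw [h3, min_eq_left h2.le] at h1
        exact h1
    have hspec := Nat.find_spec hex
    rw [hk] at hspec
    push_cast at hspec
    have hkN := hlt k le_rfl
    have hkm : 0 ≤ (k : ℝ) * e := by positivity
    refine ⟨sSup Δ, hM, u + k * e, hmem k le_rfl, hkN, by linarith, ?_⟩
    have := hle K hK
    linarith
  · refine ⟨K + ε, (hD.2 K hK ε hε).2 hb, K, hK, by linarith, by linarith, by linarith⟩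

open Classical in
/-- the reduced displacement function -/
noncomputable def red (Δ : Set ℝ) {Λ : Type} [Group Λ] (act : Λ →* (U ≃ᵢ U)) (z : U) : Λ → ℝ :=
  fun l => if Col act z l ∈ insert (0 : ℝ) (Exc Δ) then Col act z l else -1

/-- a type and a reduced displacement function realized in all extensions of the type -/
theorem base (hfin : (Exc Δ).Finite) (hU : IsUrysohn Δ U) {Λ : Type} [Group Λ] [Finite Λ]
    (act : Λ →* (U ≃ᵢ U)) : ∃ (P : Finset U) (p : U → ℝ) (κ : Λ → ℝ), Valid Δ P p ∧
      ∀ (P' : Finset U) (p' : U → ℝ), P ⊆ P' → Valid Δ P' p' → (∀ a ∈ P, p' a = p a) →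
        ∃ z, (∀ a ∈ P', dist z a = p' a) ∧ red Δ act z = κ := by
  classical
  let cs : Finset U → (U → ℝ) → Set (Λ → ℝ) := fun P p =>
    {f | ∃ z, (∀ a ∈ P, dist z a = p a) ∧ red Δ act z = f}
  have hcs : ∀ P p, (cs P p).Finite := by
    intro P p
    have h1 : (Set.univ.pi (fun _ : Λ => insert (-1 : ℝ) (insert (0 : ℝ) (Exc Δ)))).Finite :=
      Set.Finite.pi (fun _ => (hfin.insert 0).insert (-1))
    apply h1.subset
    rintro f ⟨z, -, rfl⟩ l -
    unfold red
    split_ifs with h
    · right; exact h
    · left; rfl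
  have hex : ∃ n, ∃ P p, Valid Δ P p ∧ (cs P p).ncard = n :=
    ⟨_, ∅, fun _ => 0, ⟨by simp, by simp⟩, rfl⟩
  obtain ⟨P, p, hP, hn⟩ := Nat.find_spec hex
  obtain ⟨z, hz⟩ := hU.ext P p hP
  refine ⟨P, p, red Δ act z, hP, ?_⟩
  intro P' p' hPP hV hpp
  have hsub : cs P' p' ⊆ cs P p := by
    rintro f ⟨y, hy, rfl⟩
    exact ⟨y, fun a ha => by rw [hy a (hPP ha), hpp a ha], rfl⟩
  have hle : (cs P p).ncard ≤ (cs P' p').ncard := by
    rw [hn]
    exact Nat.find_min' hex ⟨P', p', hV, rfl⟩
  have heq := Set.eq_of_subset_of_ncard_le hsub hle (hcs P p)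
  have : red Δ act z ∈ cs P' p' := by
    rw [heq]
    exact ⟨z, hz, rfl⟩
  exact this

/-- the displacement function does not vanish -/
theorem base_ne (hD : DistSet Δ) (hnt : Δ.Nontrivial) (hU : IsUrysohn Δ U)
    {Λ : Type} [Group Λ] (act : Λ →* (U ≃ᵢ U)) (hact : Function.Injective act)
    (P : Finset U) (p : U → ℝ) (κ : Λ → ℝ) (hP : Valid Δ P p)
    (hb : ∀ (P' : Finset U) (p' : U → ℝ), P ⊆ P' → Valid Δ P' p' → (∀ a ∈ P, p' a = p a) →
        ∃ z, (∀ a ∈ P', dist z a = p' a) ∧ red Δ act z = κ) (l : Λ) (hl : l ≠ 1) : κ l ≠ 0 := by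
  classical
  intro hf
  have hy0 : ∃ y, act l⁻¹ y ≠ y := by
    by_contra hcon
    push Not at hcon
    apply hl
    have : act l⁻¹ = 1 := by
      ext y
      exact hcon y
    rw [← map_one act] at this
    exact inv_eq_one.1 (hact this)
  obtain ⟨y0, hy0⟩ := hy0
  let X : Finset U := P ∪ P.image (fun x => act l⁻¹ x) ∪ {y0, act l⁻¹ y0}
  -- bounds for the finitely many relevant distances
  let F : Finset ℝ := P.image p ∪ ((X ×ˢ X).filter (fun z => z.1 ≠ z.2)).image
    (fun z => dist z.1 z.2)
  have hFΔ : ∀ c ∈ F, c ∈ Δ := by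
    intro c hc
    rcases Finset.mem_union.1 hc with h | h
    · obtain ⟨x, hx, rfl⟩ := Finset.mem_image.1 h
      exact hP.1 x hx
    · obtain ⟨z, hz, rfl⟩ := Finset.mem_image.1 h
      exact hU.dist_mem _ _ (Finset.mem_filter.1 hz).2
  have hFp : ∀ x ∈ P, p x ∈ F := fun x hx =>
    Finset.mem_union_left _ (Finset.mem_image_of_mem _ hx)
  have hFd : ∀ x ∈ X, ∀ y ∈ X, x ≠ y → dist x y ∈ F := by
    intro x hx y hy hxy
    apply Finset.mem_union_right
    exact Finset.mem_image.2 ⟨(x, y), Finset.mem_filter.2 ⟨Finset.mem_product.2 ⟨hx, hy⟩, hxy⟩, rfl⟩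
  have hFne : F.Nonempty := ⟨_, hFd (act l⁻¹ y0) (by simp [X]) y0 (by simp [X]) hy0⟩
  have hε := hFΔ _ (F.min'_mem hFne)
  have hK := hFΔ _ (F.max'_mem hFne)
  have hbd : ∀ c ∈ F, F.min' hFne ≤ c ∧ c ≤ F.max' hFne := fun c hc =>
    ⟨F.min'_le c hc, F.le_max' c hc⟩
  obtain ⟨M, hM, N, hN, hNM, hMN, hKN⟩ := two_vals hD hnt _ _ hε hK
  generalize F.min' hFne = ε at hε hbd hMN
  generalize F.max' hFne = K at hK hbd hKN
  have hNp := hD.1 N hN
  let q : U → ℝ := fun x => if x = y0 then N else M
  have hq : ∀ x, q x = N ∨ q x = M := by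
    intro x
    show (if x = y0 then N else M) = N ∨ (if x = y0 then N else M) = M
    split_ifs
    · left; rfl
    · right; rfl
  obtain ⟨a, ha⟩ := hU.ext X q (by
    refine ⟨?_, ?_⟩
    · intro x _
      rcases hq x with h | h <;> rw [h]
      · exact hN
      · exact hM
    · intro x hx y hy
      by_cases hxy : x = y
      · subst hxy
        rw [sub_self, abs_zero, dist_self]
        refine ⟨le_rfl, ?_⟩
        rcases hq x with h | h <;> rw [h] <;> linarith
      · have hd := hbd _ (hFd x hx y hy hxy)
        rcases hq x with h | h <;> rcases hq y with h' | h' <;> rw [h, h'] <;>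
          refine ⟨?_, by linarith⟩ <;> rw [abs_le] <;> constructor <;> linarith)
  have hdX : ∀ x ∈ X, dist a x = N ∨ dist a x = M := by
    intro x hx
    rw [ha x hx]
    exact hq x
  have haX : a ∉ X := by
    intro h
    rcases hdX a h with h1 | h1 <;> rw [dist_self] at h1 <;> linarith
  have hay : dist a y0 = N := by
    rw [ha y0 (by simp [X])]
    simp [q]
  have hay' : dist (act l a) y0 = M := by
    rw [act_dist, ha _ (by simp [X])]
    show (if act l⁻¹ y0 = y0 then N else M) = M
    rw [if_neg hy0]
  have hal : act l a ≠ a := by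
    intro h
    rw [h, hay] at hay'
    linarith
  have hda : ∀ x ∈ P, dist a x = N ∨ dist a x = M := fun x hx => hdX x (by simp [X, hx])
  have hdla : ∀ x ∈ P, dist (act l a) x = N ∨ dist (act l a) x = M := by
    intro x hx
    rw [act_dist]
    apply hdX
    simp only [X, Finset.mem_union, Finset.mem_image]
    left; right
    exact ⟨x, hx, rfl⟩
  have haP : a ∉ P := by
    intro h
    rcases hda a h with h1 | h1 <;> rw [dist_self] at h1 <;> linarith
  have hlaP : act l a ∉ P := by
    intro h
    rcases hdla _ h with h1 | h1 <;> rw [dist_self] at h1 <;> linarith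
  let p' : U → ℝ := fun x => if x = a then M else if x = act l a then N else p x
  have hp'a : p' a = M := by simp [p']
  have hp'l : p' (act l a) = N := by simp [p', hal]
  have hp'P : ∀ x ∈ P, p' x = p x := by
    intro x hx
    have h1 : x ≠ a := by rintro rfl; exact haP hx
    have h3 : x ≠ act l a := by rintro rfl; exact hlaP hx
    simp [p', h1, h3]
  have hmix : ∀ (x : U) (y : U) (c : ℝ), x ∈ P → (c = N ∨ c = M) →
      (dist y x = N ∨ dist y x = M) → |p x - c| ≤ dist y x ∧ dist y x ≤ p x + c := by
    intro x y c hx hc hd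
    have hpx := hbd _ (hFp x hx)
    rcases hc with rfl | rfl <;> rcases hd with h | h <;> rw [h] <;>
      refine ⟨?_, by linarith⟩ <;> rw [abs_le] <;> constructor <;> linarith
  have hV : Valid Δ (insert a (insert (act l a) P)) p' := by
    refine ⟨?_, ?_⟩
    · intro x hx
      rw [Finset.mem_insert, Finset.mem_insert] at hx
      rcases hx with rfl | rfl | hx
      · rw [hp'a]; exact hM
      · rw [hp'l]; exact hN
      · rw [hp'P x hx]; exact hP.1 x hx
    · have hMNd : |M - N| ≤ dist a (act l a) ∧ dist a (act l a) ≤ M + N := by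
        have t1 := dist_triangle (act l a) a y0
        have t2 := dist_triangle a y0 (act l a)
        rw [dist_comm y0] at t2
        rw [hay, hay'] at t1 t2
        rw [dist_comm (act l a) a] at t1
        refine ⟨?_, by linarith⟩
        rw [abs_le]
        constructor <;> linarith
      intro x hx y hy
      rw [Finset.mem_insert, Finset.mem_insert] at hx hy
      rcases hx with rfl | rfl | hx <;> rcases hy with rfl | rfl | hy
      · rw [hp'a, sub_self, abs_zero, dist_self]; exact ⟨le_rfl, by linarith⟩
      · rw [hp'a, hp'l]; exact hMNd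
      · rw [hp'a, hp'P y hy, abs_sub_comm, add_comm]
        exact hmix y _ M hy (Or.inr rfl) (hda y hy)
      · rw [hp'a, hp'l, abs_sub_comm, add_comm, dist_comm]; exact hMNd
      · rw [hp'l, sub_self, abs_zero, dist_self]; exact ⟨le_rfl, by linarith⟩
      · rw [hp'l, hp'P y hy, abs_sub_comm, add_comm]
        exact hmix y _ N hy (Or.inl rfl) (hdla y hy)
      · rw [hp'a, hp'P x hx, dist_comm]
        exact hmix x _ M hx (Or.inr rfl) (hda x hx)
      · rw [hp'l, hp'P x hx, dist_comm]
        exact hmix x _ N hx (Or.inl rfl) (hdla x hx)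
      · rw [hp'P x hx, hp'P y hy]
        exact hP.2 x hx y hy
  obtain ⟨z, hz, hcz⟩ := hb _ p' (fun x hx => by simp [hx]) hV hp'P
  have h1 : dist z a = M := by rw [hz a (by simp), hp'a]
  have h3 : dist z (act l a) = N := by rw [hz _ (by simp), hp'l]
  have h4 : dist z (act l z) = 0 := by
    have h5 := congrFun hcz l
    rw [hf] at h5
    unfold red at h5
    split_ifs at h5 with h6
    · exact h5
    · norm_num at h5
  have h5 : act l z = z := (dist_eq_zero.1 h4).symm
  rw [← h5, (act l).dist_eq, h1] at h3
  linarith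

/-- many twins -/
theorem twins (hfin : (Exc Δ).Finite) (hD : DistSet Δ) (hnt : Δ.Nontrivial) (hU : IsUrysohn Δ U)
    {Λ : Type} [Group Λ] [Finite Λ] (act : Λ →* (U ≃ᵢ U)) (hact : Function.Injective act) :
    ∃ (f : Λ → ℝ) (m : ℝ), (∀ l, l ≠ 1 → f l ≠ 0) ∧ m ≠ 0 ∧ ∀ n : ℕ, ∃ Z : Finset U, n ≤ Z.card ∧
      (∀ z ∈ Z, ∀ z' ∈ Z, z ≠ z' → dist z z' = m) ∧
      ∀ z ∈ Z, ∀ z' ∈ Z, ∀ l : Λ, l ≠ 1 → dist z (act l z') = f l := by
  classical
  have := Fintype.ofFinite Λ
  obtain ⟨P, p, κ, hP, hb⟩ := base hfin hU act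
  have hκ := base_ne hD hnt hU act hact P p κ hP hb
  obtain ⟨z1, hz1, hz1κ⟩ := hb P p (Finset.Subset.refl _) hP (fun _ _ => rfl)
  let f : Λ → ℝ := Col act z1
  have hf0 : ∀ l, l ≠ 1 → f l ≠ 0 := by
    intro l hl h0
    apply hκ l hl
    rw [← hz1κ]
    unfold red
    change Col act z1 l = 0 at h0
    rw [h0, if_pos (Set.mem_insert _ _)]
  have hz1l : ∀ l, l ≠ 1 → act l z1 ≠ z1 := by
    intro l hl h
    apply hf0 l hl
    show dist z1 (act l z1) = 0
    rw [h, dist_self]
  -- auxiliary points forcing the displacements which are not exceptional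
  have haux : ∀ l : Λ, ∃ a b : U, (f l ∉ insert (0 : ℝ) (Exc Δ)) →
      (a ≠ z1 ∧ b ≠ z1 ∧ act l z1 ≠ a ∧ act l z1 ≠ b ∧
        dist z1 a - dist (act l z1) a = f l ∧ dist z1 b + dist (act l z1) b = f l) := by
    intro l
    by_cases hgood : f l ∉ insert (0 : ℝ) (Exc Δ)
    · have hl0 : f l ≠ 0 := fun h => hgood (by rw [h]; exact Set.mem_insert _ _)
      have hne : z1 ≠ act l z1 := by
        intro h
        apply hl0
        show dist z1 (act l z1) = 0
        rw [← h, dist_self]
      have hmem : f l ∈ Δ := hU.dist_mem _ _ hne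
      have hEx : f l ∉ Exc Δ := fun h => hgood (Set.mem_insert_of_mem _ h)
      have hEx2 : (∃ s ∈ Δ, ∃ t ∈ Δ, f l = s + t) ∧ ∃ r ∈ Δ, r + f l ∈ Δ := by
        by_contra hcon
        exact hEx ⟨hmem, hcon⟩
      obtain ⟨⟨s, hs, t, ht, hst⟩, r, hr, hrf⟩ := hEx2
      have hsp := hD.1 s hs
      have htp := hD.1 t ht
      have hrp := hD.1 r hr
      have hfd : dist z1 (act l z1) = f l := rfl
      have hext : ∀ c d : ℝ, c ∈ Δ → d ∈ Δ → |c - d| ≤ f l → f l ≤ c + d →
          ∃ x, dist x z1 = c ∧ dist x (act l z1) = d := by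
        intro c d hc hd h1 h3
        have hcp := hD.1 c hc
        have hdp := hD.1 d hd
        obtain ⟨x, hx⟩ := hU.ext {z1, act l z1} (fun y => if y = z1 then c else d) (by
          have e1 : (if z1 = z1 then c else d) = c := if_pos rfl
          have e2 : (if act l z1 = z1 then c else d) = d := if_neg hne.symm
          refine ⟨?_, ?_⟩
          · intro y hy
            rw [Finset.mem_insert, Finset.mem_singleton] at hy
            rcases hy with rfl | rfl
            · simpa using hc
            · show (if act l z1 = z1 then c else d) ∈ Δ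
              rw [e2]; exact hd
          · intro y hy y' hy'
            rw [Finset.mem_insert, Finset.mem_singleton] at hy hy'
            rcases hy with hy | hy <;> rcases hy' with hy' | hy' <;> rw [hy, hy'] <;>
              beta_reduce
            · rw [e1, sub_self, abs_zero, dist_self]; exact ⟨le_rfl, by linarith⟩
            · rw [e1, e2, hfd]; exact ⟨h1, h3⟩
            · rw [e1, e2, dist_comm, hfd, abs_sub_comm, add_comm]; exact ⟨h1, h3⟩
            · rw [e2, sub_self, abs_zero, dist_self]; exact ⟨le_rfl, by linarith⟩)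
        refine ⟨x, ?_, ?_⟩
        · have := hx z1 (by simp)
          simpa using this
        · have := hx (act l z1) (by simp)
          beta_reduce at this
          rwa [if_neg hne.symm] at this
      have hfp : 0 < f l := hD.1 _ hmem
      obtain ⟨a, ha1, ha2⟩ := hext (r + f l) r hrf hr
        (by rw [add_sub_cancel_left, abs_of_pos hfp]) (by linarith)
      obtain ⟨b, hb1, hb2⟩ := hext s t hs ht
        (by rw [abs_le]; constructor <;> linarith) (by linarith)
      refine ⟨a, b, fun _ => ⟨?_, ?_, ?_, ?_, ?_, ?_⟩⟩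
      · rintro rfl
        rw [dist_self] at ha1
        linarith
      · rintro rfl
        rw [dist_self] at hb1
        linarith
      · intro h
        rw [← h, dist_self] at ha2
        linarith
      · intro h
        rw [← h, dist_self] at hb2
        linarith
      · rw [dist_comm z1 a, dist_comm (act l z1) a, ha1, ha2]; ring
      · rw [dist_comm z1 b, dist_comm (act l z1) b, hb1, hb2]; exact hst.symm
    · exact ⟨z1, z1, fun h => absurd h hgood⟩
  choose A B hAB using haux
  let X0 : Finset U := P ∪ (Finset.univ.image (fun l : Λ => act l z1) ∪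
    (Finset.univ.image A ∪ (Finset.univ.image (fun l : Λ => act l⁻¹ (A l)) ∪
      (Finset.univ.image B ∪ Finset.univ.image (fun l : Λ => act l⁻¹ (B l))))))
  have hXP : P ⊆ X0 := Finset.subset_union_left
  have hXz : ∀ l, act l z1 ∈ X0 := fun l => by simp [X0]
  have hXA : ∀ l, A l ∈ X0 := fun l => by simp [X0]
  have hXA' : ∀ l, act l⁻¹ (A l) ∈ X0 := by
    intro l
    apply Finset.mem_union_right
    apply Finset.mem_union_right
    apply Finset.mem_union_right
    apply Finset.mem_union_left
    exact Finset.mem_image_of_mem (fun l : Λ => act l⁻¹ (A l)) (Finset.mem_univ l)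
  have hXB : ∀ l, B l ∈ X0 := fun l => by simp [X0]
  have hXB' : ∀ l, act l⁻¹ (B l) ∈ X0 := by
    intro l
    apply Finset.mem_union_right
    apply Finset.mem_union_right
    apply Finset.mem_union_right
    apply Finset.mem_union_right
    apply Finset.mem_union_right
    exact Finset.mem_image_of_mem (fun l : Λ => act l⁻¹ (B l)) (Finset.mem_univ l)
  obtain ⟨m, hm, hmX⟩ : ∃ m ∈ Δ, ∀ x ∈ X0, x ≠ z1 → m ≤ dist z1 x := by
    obtain ⟨δ, hδ⟩ := hnt.nonempty
    let F : Finset ℝ := insert δ ((X0.filter (fun x => x ≠ z1)).image (fun x => dist z1 x))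
    have hF : F.Nonempty := ⟨δ, Finset.mem_insert_self _ _⟩
    refine ⟨F.min' hF, ?_, ?_⟩
    · have := F.min'_mem hF
      rcases Finset.mem_insert.1 this with h | h
      · rw [h]; exact hδ
      · obtain ⟨x, hx, hx2⟩ := Finset.mem_image.1 h
        rw [← hx2]
        exact hU.dist_mem _ _ (fun h => (Finset.mem_filter.1 hx).2 h.symm)
    · intro x hx hne
      apply F.min'_le
      apply Finset.mem_insert_of_mem
      exact Finset.mem_image.2 ⟨x, Finset.mem_filter.2 ⟨hx, hne⟩, rfl⟩
  have hmpos := hD.1 m hm
  refine ⟨f, m, hf0, hmpos.ne', ?_⟩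
  have hfinv : ∀ l : Λ, f l⁻¹ = f l := fun l => Col_inv act z1 l
  have main : ∀ n : ℕ, ∃ Z : Finset U, Z.card = n + 1 ∧ z1 ∈ Z ∧
      (∀ z ∈ Z, ∀ z' ∈ Z, z ≠ z' → dist z z' = m) ∧
      ∀ z ∈ Z, ∀ z' ∈ Z, ∀ l : Λ, l ≠ 1 → dist z (act l z') = f l := by
    intro n
    induction n with
    | zero =>
      refine ⟨{z1}, by simp, by simp, ?_, ?_⟩
      · intro y hy y' hy' hne'
        rw [Finset.mem_singleton] at hy hy'
        exact absurd (hy.trans hy'.symm) hne'
      · intro y hy y' hy' l _
        rw [Finset.mem_singleton] at hy hy'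
        rw [hy, hy']
        rfl
    | succ n ih =>
      obtain ⟨Z, hZc, hz1Z, hZ2, hZ3⟩ := ih
      let X : Finset U := X0 ∪ Z.biUnion (fun z => Finset.univ.image (fun l : Λ => act l z))
      have hX0 : X0 ⊆ X := Finset.subset_union_left
      have hX : ∀ z ∈ Z, ∀ l : Λ, act l z ∈ X := by
        intro z hz l
        apply Finset.mem_union_right
        exact Finset.mem_biUnion.2 ⟨z, hz, Finset.mem_image_of_mem _ (Finset.mem_univ l)⟩
      have hX1 : ∀ z ∈ Z, z ∈ X := by
        intro z hz
        have := hX z hz 1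
        rw [map_one] at this
        exact this
      have hmX' : ∀ x ∈ X, x ≠ z1 → m ≤ dist z1 x := by
        intro x hx hne
        rcases Finset.mem_union.1 hx with h | h
        · exact hmX x h hne
        · obtain ⟨z, hz, hzx⟩ := Finset.mem_biUnion.1 h
          obtain ⟨l, -, rfl⟩ := Finset.mem_image.1 hzx
          by_cases hl : l = 1
          · have e : act l z = z := by rw [hl, map_one]; rfl
            rw [e] at hne ⊢
            rw [hZ2 z1 hz1Z z hz (fun h => hne h.symm)]
          · rw [hZ3 z1 hz1Z z hz l hl]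
            exact hmX _ (hXz l) (hz1l l hl)
      let q : U → ℝ := fun x => if x = z1 then m else dist z1 x
      have hq1 : q z1 = m := by simp [q]
      have hq2 : ∀ x, x ≠ z1 → q x = dist z1 x := by
        intro x hx
        simp [q, hx]
      have hVal : Valid Δ X q := by
        refine ⟨?_, ?_⟩
        · intro x _
          by_cases hx : x = z1
          · rw [hx, hq1]; exact hm
          · rw [hq2 x hx]
            exact hU.dist_mem _ _ (fun h => hx h.symm)
        · intro x hxX y hyX
          by_cases hx : x = z1 <;> by_cases hy : y = z1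
          · rw [hx, hy, hq1, sub_self, abs_zero, dist_self]
            exact ⟨le_rfl, by linarith⟩
          · rw [hx, hq1, hq2 y hy]
            have hd := hmX' y hyX hy
            refine ⟨?_, by linarith⟩
            rw [abs_le]
            constructor <;> linarith
          · rw [hy, hq1, hq2 x hx, dist_comm x z1]
            have hd := hmX' x hxX hx
            refine ⟨?_, by linarith⟩
            rw [abs_le]
            constructor <;> linarith
          · rw [hq2 x hx, hq2 y hy]
            refine ⟨?_, ?_⟩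
            · rw [dist_comm z1 x, dist_comm z1 y]
              exact abs_dist_sub_le _ _ _
            · rw [dist_comm z1 x]
              exact dist_triangle _ _ _
      have hpos : ∀ x ∈ X, 0 < q x := fun x hx => hD.1 _ (hVal.1 x hx)
      have hqP : ∀ a ∈ P, q a = p a := by
        intro a ha
        have hne' : a ≠ z1 := by
          intro h
          have h1 := hz1 a ha
          rw [h, dist_self] at h1
          have h3 := hD.1 _ (hP.1 a ha)
          rw [h, ← h1] at h3
          exact lt_irrefl _ h3
        rw [hq2 a hne']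
        exact hz1 a ha
      obtain ⟨y, hy, hyκ⟩ := hb X q (hXP.trans hX0) hVal hqP
      have hyX : y ∉ X := by
        intro h
        have h1 := hy y h
        have h3 := hpos y h
        rw [← h1, dist_self] at h3
        exact lt_irrefl _ h3
      have hyZ : y ∉ Z := fun h => hyX (hX1 y h)
      have hyz : ∀ z ∈ Z, dist y z = m := by
        intro z hz
        rw [hy z (hX1 z hz)]
        by_cases h : z = z1
        · rw [h, hq1]
        · rw [hq2 z h]
          exact hZ2 z1 hz1Z z hz (fun h' => h h'.symm)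
      have hylz : ∀ z ∈ Z, ∀ l : Λ, l ≠ 1 → dist y (act l z) = f l := by
        intro z hz l hl
        rw [hy _ (hX z hz l)]
        have h1 : dist z1 (act l z) = f l := hZ3 z1 hz1Z z hz l hl
        have h3 : act l z ≠ z1 := by
          intro h
          rw [h, dist_self] at h1
          exact hf0 l hl h1.symm
        rw [hq2 _ h3, h1]
      have hyf : ∀ l : Λ, dist y (act l y) = f l := by
        intro l
        by_cases hgood : f l ∈ insert (0 : ℝ) (Exc Δ)
        · have h1 : red Δ act y l = f l := by
            rw [hyκ, ← hz1κ]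
            unfold red
            exact if_pos hgood
          unfold red at h1
          split_ifs at h1 with h3
          · exact h1
          · exfalso
            have h4 : 0 ≤ f l := dist_nonneg
            rw [← h1] at h4
            norm_num at h4
        · obtain ⟨g1, g2, g3, g4, g5, g6⟩ := hAB l hgood
          have hne1 : act l⁻¹ (A l) ≠ z1 := by
            intro h
            apply g3
            rw [← h]
            have : (act l * act l⁻¹) (A l) = A l := by
              rw [← map_mul, mul_inv_cancel, map_one]; rfl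
            exact this
          have hne2 : act l⁻¹ (B l) ≠ z1 := by
            intro h
            apply g4
            rw [← h]
            have : (act l * act l⁻¹) (B l) = B l := by
              rw [← map_mul, mul_inv_cancel, map_one]; rfl
            exact this
          have e1 : dist y (A l) = dist z1 (A l) := by
            rw [hy _ (hX0 (hXA l)), hq2 _ g1]
          have e2 : dist y (B l) = dist z1 (B l) := by
            rw [hy _ (hX0 (hXB l)), hq2 _ g2]
          have e3 : dist (act l y) (A l) = dist (act l z1) (A l) := by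
            rw [act_dist, act_dist, hy _ (hX0 (hXA' l)), hq2 _ hne1]
          have e4 : dist (act l y) (B l) = dist (act l z1) (B l) := by
            rw [act_dist, act_dist, hy _ (hX0 (hXB' l)), hq2 _ hne2]
          have t1 := dist_triangle y (act l y) (A l)
          have t2 := dist_triangle y (B l) (act l y)
          rw [dist_comm (B l)] at t2
          rw [e1, e3] at t1
          rw [e2, e4] at t2
          linarith
      refine ⟨insert y Z, by rw [Finset.card_insert_of_notMem hyZ, hZc],
        Finset.mem_insert_of_mem hz1Z, ?_, ?_⟩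
      · intro z hz z' hz' hne'
        rcases Finset.mem_insert.1 hz with hz0 | hz0 <;>
          rcases Finset.mem_insert.1 hz' with hz1' | hz1'
        · exact absurd (hz0.trans hz1'.symm) hne'
        · rw [hz0]; exact hyz z' hz1'
        · rw [hz1', dist_comm]; exact hyz z hz0
        · exact hZ2 z hz0 z' hz1' hne'
      · intro z hz z' hz' l hl
        rcases Finset.mem_insert.1 hz with hz0 | hz0 <;>
          rcases Finset.mem_insert.1 hz' with hz1' | hz1'
        · rw [hz0, hz1']; exact hyf l
        · rw [hz0]; exact hylz z' hz1' l hl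
        · rw [hz1', dist_comm, act_dist, hylz z hz0 l⁻¹ (fun h => hl (inv_eq_one.1 h)), hfinv]
        · exact hZ3 z hz0 z' hz1' l hl
  intro n
  obtain ⟨Z, h1, -, h3, h4⟩ := main n
  exact ⟨Z, by omega, h3, h4⟩

end

end Pool.Agent.X196.UD2
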