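import Pool.Agent.X196.UD.Main
import Pool.Agent.X196.UD2.Twins

set_option autoImplicit false

/-!
Dense locally finite subgroups of the isometry group of the Urysohn space with distances in a set
with finitely many exceptional elements are infinity-MIF.
-/

namespace Pool.Agent.X196.UD2

open Pool.Agent.X196.UD

section
variable {Δ : Set ℝ} {U : Type} [MetricSpace U]

theorem core (hfin : (Exc Δ).Finite) (hD : DistSet Δ) (hnt : Δ.Nontrivial) (hU : IsUrysohn Δ U)
    (G : Subgroup (U ≃ᵢ U)) (hG : DenseIn G) (Λ : Subgroup G) [Finite Λ] (n : ℕ)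
    (Γ : Type) [Group Γ] [Finite Γ] (j : Λ →* Γ) (γ : Fin n → Γ) :
    ∃ h : Fin n → G, ∀ w : Monoid.Coprod Λ (FreeGroup (Fin n)),
      Monoid.Coprod.lift j (FreeGroup.lift γ) w ≠ 1 →
      Monoid.Coprod.lift Λ.subtype (FreeGroup.lift h) w ≠ 1 := by
  classical
  have := Fintype.ofFinite Γ
  have := Fintype.ofFinite Λ
  let act : Λ →* (U ≃ᵢ U) := G.subtype.comp Λ.subtype
  have hact : Function.Injective act :=
    (Subtype.val_injective).comp (Subtype.val_injective)
  obtain ⟨f, m, hf, hm, hZ⟩ := Pool.Agent.X196.UD2.twins hfin hD hnt hU act hact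
  obtain ⟨Z, hZ1, hZ2, hZ3⟩ := hZ (Fintype.card Γ)
  obtain ⟨e⟩ : Nonempty (Γ ↪ Z) := Function.Embedding.nonempty_of_card_le (by
    rw [Fintype.card_coe]; exact hZ1)
  let ζ : Γ → U := fun a => (e a).1
  have hζ : ∀ a, ζ a ∈ Z := fun a => (e a).2
  have hζi : ∀ a b, ζ a = ζ b → a = b := fun a b h => e.injective (Subtype.ext h)
  have hact_mul : ∀ (μ ν : Λ) (x : U), act (μ * ν) x = act μ (act ν x) := by
    intro μ ν x
    rw [map_mul]
    rfl
  have hD : ∀ (a b : Γ) (μ ν : Λ), dist (act μ (ζ a)) (act ν (ζ b)) =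
      if μ = ν then (if a = b then 0 else m) else f (μ⁻¹ * ν) := by
    intro a b μ ν
    split_ifs with h1 h3
    · rw [h1, h3, dist_self]
    · rw [h1, (act ν).dist_eq]
      exact hZ2 _ (hζ a) _ (hζ b) (fun h => h3 (hζi a b h))
    · rw [act_dist, ← hact_mul]
      exact hZ3 _ (hζ a) _ (hζ b) _ (fun h => h1 (inv_mul_eq_one.1 h))
  let Θ : Γ × Λ → U := fun x => act x.2 (ζ ((j x.2)⁻¹ * x.1))
  have hΘ : ∀ (c : Γ) (x y : Γ × Λ),
      dist (Θ (c * x.1, x.2)) (Θ (c * y.1, y.2)) = dist (Θ x) (Θ y) := by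
    intro c x y
    show dist (act x.2 (ζ ((j x.2)⁻¹ * (c * x.1)))) (act y.2 (ζ ((j y.2)⁻¹ * (c * y.1)))) =
      dist (act x.2 (ζ ((j x.2)⁻¹ * x.1))) (act y.2 (ζ ((j y.2)⁻¹ * y.1)))
    rw [hD, hD]
    by_cases h : x.2 = y.2
    · rw [if_pos h, if_pos h, h]
      by_cases h1 : x.1 = y.1
      · rw [if_pos (by rw [h1]), if_pos (by rw [h1])]
      · rw [if_neg, if_neg]
        · intro h3
          exact h1 (mul_left_cancel h3)
        · intro h3
          exact h1 (mul_left_cancel (mul_left_cancel h3))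
    · rw [if_neg h, if_neg h]
  have hinj : ∀ x y : Γ × Λ, Θ x = Θ y → x.1 = y.1 := by
    intro x y hxy
    have h1 : dist (Θ x) (Θ y) = 0 := by rw [hxy, dist_self]
    change dist (act x.2 (ζ ((j x.2)⁻¹ * x.1))) (act y.2 (ζ ((j y.2)⁻¹ * y.1))) = 0 at h1
    rw [hD] at h1
    split_ifs at h1 with h3 h4
    · rw [h3] at h4
      exact mul_left_cancel h4
    · exact absurd h1 hm
    · exact absurd h1 (hf _ (fun h => h3 (inv_mul_eq_one.1 h)))
  have hex : ∀ i : Fin n, ∃ h : G, ∀ x : Γ × Λ,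
      (h : U ≃ᵢ U) (Θ x) = Θ (γ i * x.1, x.2) := by
    intro i
    obtain ⟨g, hg⟩ := homog hU Θ (fun x => Θ (γ i * x.1, x.2)) (fun x y => (hΘ (γ i) x y).symm)
    obtain ⟨h, hh, hh'⟩ := hG g (Finset.univ.image Θ)
    refine ⟨⟨h, hh⟩, fun x => ?_⟩
    show h (Θ x) = _
    rw [hh' _ (Finset.mem_image_of_mem _ (Finset.mem_univ x)), hg]
  choose h hh using hex
  refine ⟨h, ?_⟩
  have hfree : ∀ (x : FreeGroup (Fin n)) (y : Γ × Λ),
      ((FreeGroup.lift h x : G) : U ≃ᵢ U) (Θ y) = Θ (FreeGroup.lift γ x * y.1, y.2) := by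
    intro x
    induction x using FreeGroup.induction_on with
    | C1 =>
      intro y
      rw [map_one, map_one, one_mul]
      rfl
    | of i =>
      intro y
      rw [FreeGroup.lift_apply_of, FreeGroup.lift_apply_of]
      exact hh i y
    | inv_of i ih =>
      intro y
      rw [map_inv, map_inv, FreeGroup.lift_apply_of, FreeGroup.lift_apply_of]
      have h1 := hh i ((γ i)⁻¹ * y.1, y.2)
      rw [mul_inv_cancel_left] at h1
      have h3 : ((h i)⁻¹ : G) * h i = 1 := inv_mul_cancel _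
      have h4 : (((h i)⁻¹ : G) : U ≃ᵢ U) (((h i : G) : U ≃ᵢ U) (Θ ((γ i)⁻¹ * y.1, y.2))) =
          Θ ((γ i)⁻¹ * y.1, y.2) := by
        have := congrArg (fun g : G => (g : U ≃ᵢ U) (Θ ((γ i)⁻¹ * y.1, y.2))) h3
        exact this
      rw [h1] at h4
      exact h4
    | mul a b iha ihb =>
      intro y
      rw [map_mul, map_mul]
      show ((FreeGroup.lift h a : G) : U ≃ᵢ U) (((FreeGroup.lift h b : G) : U ≃ᵢ U) (Θ y)) = _
      rw [ihb y, iha, mul_assoc]
  have key : ∀ (w : Monoid.Coprod Λ (FreeGroup (Fin n))) (y : Γ × Λ), ∃ ν : Λ,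
      ((Monoid.Coprod.lift Λ.subtype (FreeGroup.lift h) w : G) : U ≃ᵢ U) (Θ y) =
        Θ (Monoid.Coprod.lift j (FreeGroup.lift γ) w * y.1, ν) := by
    intro w
    induction w using Monoid.Coprod.induction_on with
    | inl l =>
      intro y
      refine ⟨l * y.2, ?_⟩
      rw [Monoid.Coprod.lift_apply_inl, Monoid.Coprod.lift_apply_inl]
      show act l (act y.2 (ζ ((j y.2)⁻¹ * y.1))) = act (l * y.2) (ζ ((j (l * y.2))⁻¹ * (j l * y.1)))
      rw [hact_mul, map_mul, mul_inv_rev, mul_assoc, inv_mul_cancel_left]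
    | inr x =>
      intro y
      refine ⟨y.2, ?_⟩
      rw [Monoid.Coprod.lift_apply_inr, Monoid.Coprod.lift_apply_inr]
      exact hfree x y
    | mul a b iha ihb =>
      intro y
      obtain ⟨ν, hν⟩ := ihb y
      obtain ⟨ν', hν'⟩ := iha (Monoid.Coprod.lift j (FreeGroup.lift γ) b * y.1, ν)
      refine ⟨ν', ?_⟩
      rw [map_mul, map_mul]
      show ((Monoid.Coprod.lift Λ.subtype (FreeGroup.lift h) a : G) : U ≃ᵢ U)
        (((Monoid.Coprod.lift Λ.subtype (FreeGroup.lift h) b : G) : U ≃ᵢ U) (Θ y)) = _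
      rw [hν, hν', mul_assoc]
  intro w hw hcon
  obtain ⟨ν, hν⟩ := key w (1, 1)
  rw [hcon] at hν
  apply hw
  have h1 := hinj (1, 1) _ hν
  rw [mul_one] at h1
  exact h1.symm

theorem main (hfin : (Exc Δ).Finite) (hD : DistSet Δ) (hnt : Δ.Nontrivial) (hU : IsUrysohn Δ U)
    (G : Subgroup (U ≃ᵢ U)) (hG : DenseIn G) (hL : LocFin G) : InfMIF G := by
  classical
  intro k n g w _ hw
  obtain ⟨Γ, _, _, j, γ, _, hwi⟩ := hw
  have hfinΛ : Finite (Subgroup.closure (Set.range g)) := by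
    have := hL (Finset.univ.image g)
    rwa [Finset.coe_image, Finset.coe_univ, Set.image_univ] at this
  obtain ⟨h, hh⟩ := Pool.Agent.X196.UD2.core hfin hD hnt hU G hG (Subgroup.closure (Set.range g)) n Γ j γ
  exact ⟨h, fun i => hh (w i) (hwi i)⟩

end

end Pool.Agent.X196.UD2
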